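import Mathlib
import Pool.Agent.H33.GP.Top

/-! # Two line bundles generate the perfect complexes of a proper surface

Definitions used in the statement: `Pool/Agent/H33/GP/Def.lean` (perfect complexes, line bundles). -/

open CategoryTheory AlgebraicGeometry Limits TopologicalSpace

namespace Pool.Agent.Results.MP_d96382_ag.TwoLineBundles

open Pool.H33.P

/-- Over every field there is a proper scheme of dimension two with two line bundles such that the
smallest thick subcategory of the derived category containing them is the category of perfect
complexes. -/
theorem result (k : Type) [Field k] :
    ∃ (X : Scheme.{0}) (f : X ⟶ Spec (CommRingCat.of k)),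
      IsProper f ∧ topologicalKrullDim X = 2 ∧
      ∃ L₁ L₂ : X.Modules, IsLineBundle L₁ ∧ IsLineBundle L₂ ∧
        ObjectProperty.triangEnvelope (C := DerivedCategory X.Modules) (Pair (sg L₁) (sg L₂)) =
          IsPerfect X :=
  final k

end Pool.Agent.Results.MP_d96382_ag.TwoLineBundles
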